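import Mathlib
import Pool.Agent.X257.EX.Pairs2

/-!
# A uniform bound for the hyperelliptic curves of all genera over many elliptic curves

For a positive proportion of the pairs `(A, B)` of positive integers all the hyperelliptic curves
`C : y² = f(x)` of genus `g`, `f h² = u v (u - A v) (u - B v)` with polynomials `h, u, v` over `ℚ`,
have at most `2 g + 4 + 2 deg h` rational points, and the curves `y² = x (x ^ k - A) (x ^ k - B)`,
`k ≥ 3` odd, and `y² = (x ^ k - A) (x ^ k - B)`, `k ≥ 4` even, have exactly two.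
-/

set_option autoImplicit false

namespace Pool.Agent.Results.MP_10e784_ag.CoversOfEllipticCurves

open Polynomial Finset

open Classical in
/-- The number of the rational points of the smooth projective curve `y² = f(x)`, for a squarefree
polynomial `f` of degree at least 3: the number of the affine ones, plus the number of the rational
points at infinity, which is 1 if the degree is odd, 2 if the degree is even and the leading
coefficient is a square, and 0 otherwise. -/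
noncomputable def numPoints (f : ℚ[X]) : ℕ∞ :=
  {p : ℚ × ℚ | p.2 ^ 2 = f.eval p.1}.encard +
    if Odd f.natDegree then 1 else if IsSquare f.leadingCoeff then 2 else 0

/-- The curve `y² = f(x)` is a smooth curve of genus `g ≥ 2`. -/
def HasGenus (f : ℚ[X]) (g : ℕ) : Prop :=
  Squarefree f ∧ 2 ≤ g ∧ (f.natDegree = 2 * g + 1 ∨ f.natDegree = 2 * g + 2)

/-- the property of the pairs `(A, B)` -/
def Good (A B : ℤ) : Prop :=
  (∀ k : ℕ, 3 ≤ k → Odd k →
    HasGenus (X * (X ^ k - C (A : ℚ)) * (X ^ k - C (B : ℚ))) k ∧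
    numPoints (X * (X ^ k - C (A : ℚ)) * (X ^ k - C (B : ℚ))) = 2) ∧
  (∀ k : ℕ, 4 ≤ k → Even k →
    HasGenus ((X ^ k - C (A : ℚ)) * (X ^ k - C (B : ℚ))) (k - 1) ∧
    numPoints ((X ^ k - C (A : ℚ)) * (X ^ k - C (B : ℚ))) = 2) ∧
  ∀ (f h u v : ℚ[X]) (g : ℕ), HasGenus f g → h ≠ 0 →
    f * h ^ 2 = u * v * (u - C (A : ℚ) * v) * (u - C (B : ℚ) * v) →
    numPoints f ≤ 2 * g + 4 + 2 * h.natDegree ∧
    ∀ x y : ℚ, y ^ 2 = f.eval x → y = 0 ∨ h.eval x = 0

lemma no_pow {A : ℕ} (h1 : 1 < A) (hs : Squarefree A) {k : ℕ} (hk : 2 ≤ k) (x : ℚ) :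
    x ^ k ≠ (A : ℚ) := by
  intro h
  have hd : (x ^ k).den = 1 := by rw [h]; exact Rat.den_natCast A
  rw [Rat.den_pow] at hd
  have hd1 : x.den = 1 := by
    rcases Nat.pow_eq_one.1 hd with h2 | h2
    · exact h2
    · omega
  have hx : x = x.num := (Rat.den_eq_one_iff x).1 hd1 |>.symm
  have h3 : (x.num) ^ k = (A : ℤ) := by
    rw [hx] at h
    exact_mod_cast h
  have h4 : x.num.natAbs ^ k = A := by
    have := congrArg Int.natAbs h3
    rwa [Int.natAbs_pow, Int.natAbs_natCast] at this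
  have h5 : x.num.natAbs * x.num.natAbs ∣ A := by
    rw [← h4, ← pow_two]
    exact pow_dvd_pow _ hk
  have h6 := Nat.isUnit_iff.1 (hs _ h5)
  rw [h6, one_pow] at h4
  omega

lemma deg_one (k : ℕ) (_ : k ≠ 0) (r : ℚ) : (X ^ k - C r : ℚ[X]).natDegree = k :=
  natDegree_X_pow_sub_C

lemma monic_one (k : ℕ) (hk : k ≠ 0) (r : ℚ) : (X ^ k - C r : ℚ[X]).Monic :=
  monic_X_pow_sub_C r hk

lemma cop_one (k : ℕ) {r t : ℚ} (h : r ≠ t) : IsCoprime (X ^ k - C r : ℚ[X]) (X ^ k - C t) := by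
  have h' : t - r ≠ 0 := sub_ne_zero.2 h.symm
  refine ⟨C (1 / (t - r)), -C (1 / (t - r)), ?_⟩
  have : C (1 / (t - r)) * (X ^ k - C r) + -C (1 / (t - r)) * (X ^ k - C t) =
      C (1 / (t - r)) * C (t - r) := by
    rw [C_sub]; ring
  rw [this, ← C_mul, one_div, inv_mul_cancel₀ h', C_1]

lemma cop_X (k : ℕ) (hk : k ≠ 0) {r : ℚ} (h : r ≠ 0) : IsCoprime (X : ℚ[X]) (X ^ k - C r) := by
  refine ⟨C (1 / r) * X ^ (k - 1), -C (1 / r), ?_⟩
  have e : C (1 / r) * X ^ (k - 1) * X = C (1 / r) * X ^ k := by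
    rw [mul_assoc, ← pow_succ]
    congr 3
    omega
  have : C (1 / r) * X ^ (k - 1) * X + -C (1 / r) * (X ^ k - C r) = C (1 / r) * C r := by
    rw [e]; ring
  rw [this, ← C_mul, one_div, inv_mul_cancel₀ h, C_1]

lemma sep_one (k : ℕ) (hk : k ≠ 0) {r : ℚ} (h : r ≠ 0) : (X ^ k - C r : ℚ[X]).Separable :=
  separable_X_pow_sub_C r (by exact_mod_cast hk) h

lemma encard_le {f h : ℚ[X]} (hf : f ≠ 0) (hh : h ≠ 0)
    (H : ∀ x y : ℚ, y ^ 2 = f.eval x → y = 0 ∨ h.eval x = 0) :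
    {p : ℚ × ℚ | p.2 ^ 2 = f.eval p.1}.encard ≤ f.natDegree + 2 * h.natDegree := by
  classical
  have h1 : {p : ℚ × ℚ | p.2 ^ 2 = f.eval p.1} ⊆
      ((fun x : ℚ => (x, (0 : ℚ))) '' {x : ℚ | f.eval x = 0}) ∪
        {p : ℚ × ℚ | h.eval p.1 = 0 ∧ p.2 ^ 2 = f.eval p.1} := by
    rintro ⟨x, y⟩ hxy
    rcases H x y hxy with h2 | h2
    · left
      refine ⟨x, ?_, by rw [h2]⟩
      have h3 : y ^ 2 = f.eval x := hxy
      rw [h2, zero_pow two_ne_zero] at h3
      exact h3.symm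
    · right
      exact ⟨h2, hxy⟩
  have r1 : ∀ q : ℚ[X], q ≠ 0 → {x : ℚ | q.eval x = 0}.encard ≤ q.natDegree := by
    intro q hq
    have : {x : ℚ | q.eval x = 0} = (q.roots.toFinset : Set ℚ) := by
      ext x
      simp [hq]
    rw [this, Set.encard_coe_eq_coe_finsetCard]
    exact_mod_cast (Multiset.toFinset_card_le _).trans (card_roots' q)
  have r2 : {p : ℚ × ℚ | h.eval p.1 = 0 ∧ p.2 ^ 2 = f.eval p.1}.encard ≤ 2 * h.natDegree := by
    obtain ⟨s, hs⟩ : ∃ s : ℚ → ℚ, ∀ x, (∃ y, y ^ 2 = f.eval x) → (s x) ^ 2 = f.eval x := by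
      refine ⟨fun x => if hx : ∃ y, y ^ 2 = f.eval x then hx.choose else 0, fun x hx => ?_⟩
      dsimp only
      rw [dif_pos hx]
      exact hx.choose_spec
    have h2 : {p : ℚ × ℚ | h.eval p.1 = 0 ∧ p.2 ^ 2 = f.eval p.1} ⊆
        ((fun x : ℚ => (x, s x)) '' {x : ℚ | h.eval x = 0}) ∪
          ((fun x : ℚ => (x, -s x)) '' {x : ℚ | h.eval x = 0}) := by
      rintro ⟨x, y⟩ ⟨h3, h4⟩
      dsimp only at h3 h4
      have h5 := hs x ⟨y, h4⟩
      rcases sq_eq_sq_iff_eq_or_eq_neg.1 (h4.trans h5.symm) with h6 | h6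
      · left; exact ⟨x, h3, by rw [h6]⟩
      · right; exact ⟨x, h3, by rw [h6]⟩
    refine (Set.encard_le_encard h2).trans ((Set.encard_union_le _ _).trans ?_)
    rw [two_mul]
    exact add_le_add ((Set.encard_image_le _ _).trans (r1 h hh))
      ((Set.encard_image_le _ _).trans (r1 h hh))
  refine (Set.encard_le_encard h1).trans ((Set.encard_union_le _ _).trans ?_)
  exact add_le_add ((Set.encard_image_le _ _).trans (r1 f hf)) r2

theorem good_of {A B : ℕ} (H : Pool.Agent.X257.EX.NS A B) : Good A B := by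
  obtain ⟨hB1, hBA, sA, sB, -, nsq, hNP⟩ := H
  have hA1 : 1 < A := hB1.trans hBA
  have A0 : (A : ℚ) ≠ 0 := by exact_mod_cast (by omega : A ≠ 0)
  have B0 : (B : ℚ) ≠ 0 := by exact_mod_cast (by omega : B ≠ 0)
  have AB : (A : ℚ) ≠ B := by exact_mod_cast (by omega : A ≠ B)
  have key : ∀ (f h u v : ℚ[X]),
      f * h ^ 2 = u * v * (u - C (A : ℚ) * v) * (u - C (B : ℚ) * v) →
      ∀ x y : ℚ, y ^ 2 = f.eval x → y = 0 ∨ h.eval x = 0 := by
    intro f h u v e x y hxy
    have e1 : f.eval x * (h.eval x) ^ 2 = u.eval x * v.eval x * (u.eval x - A * v.eval x) *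
        (u.eval x - B * v.eval x) := by
      have := congrArg (eval x) e
      simpa using this
    by_cases hv : v.eval x = 0
    · rw [hv, mul_zero, zero_mul, zero_mul, ← hxy, ← mul_pow] at e1
      exact mul_eq_zero.1 (pow_eq_zero_iff two_ne_zero |>.1 e1)
    · have h1 := hNP (u.eval x / v.eval x) (y * h.eval x / (v.eval x) ^ 2) (by
        rw [div_pow, mul_pow, hxy, e1]
        push_cast
        field_simp)
      have h2 : y * h.eval x = 0 := by
        rcases div_eq_zero_iff.1 h1 with h3 | h3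
        · exact h3
        · exact absurd h3 (pow_ne_zero 2 hv)
      exact mul_eq_zero.1 h2
  have ev : ∀ (k : ℕ) (r x : ℚ), (X ^ k - C r : ℚ[X]).eval x = x ^ k - r := by
    intro k r x; simp
  refine ⟨fun k hk ho => ?_, fun k hk he => ?_, fun f h u v g hg hh e => ⟨?_, ?_⟩⟩
  · have hk0 : k ≠ 0 := by omega
    have sq : Squarefree (X * (X ^ k - C (A : ℚ)) * (X ^ k - C (B : ℚ)) : ℚ[X]) :=
      (((separable_X).mul (sep_one k hk0 A0) (cop_X k hk0 A0)).mul (sep_one k hk0 B0)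
        ((cop_X k hk0 B0).mul_left (cop_one k AB))).squarefree
    have hdeg : (X * (X ^ k - C (A : ℚ)) * (X ^ k - C (B : ℚ)) : ℚ[X]).natDegree = 2 * k + 1 := by
      rw [(monic_X.mul (monic_one k hk0 _)).natDegree_mul (monic_one k hk0 _),
        monic_X.natDegree_mul (monic_one k hk0 _), natDegree_X, deg_one k hk0, deg_one k hk0]
      ring
    refine ⟨⟨by push_cast; exact sq, by omega, Or.inl (by push_cast; exact hdeg)⟩, ?_⟩
    unfold numPoints
    push_cast
    rw [hdeg, if_pos ⟨k, rfl⟩]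
    have e1 : {p : ℚ × ℚ | p.2 ^ 2 =
        (X * (X ^ k - C (A : ℚ)) * (X ^ k - C (B : ℚ)) : ℚ[X]).eval p.1} = {(0, 0)} := by
      ext ⟨x, y⟩
      rw [Set.mem_ofPred_eq, Set.mem_singleton_iff, eval_mul, eval_mul, eval_X, ev, ev]
      constructor
      · intro h1
        obtain ⟨m, hm⟩ := ho
        have h2 := key (X * (X ^ k - C (A : ℚ)) * (X ^ k - C (B : ℚ))) (X ^ m) (X ^ k) 1 (by
          rw [hm]; ring) x y (by rw [eval_mul, eval_mul, eval_X, ev, ev]; exact h1)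
        have h3 : x = 0 := by
          rcases h2 with h3 | h3
          · rw [h3, zero_pow two_ne_zero] at h1
            dsimp only at h1
            rcases mul_eq_zero.1 h1.symm with h4 | h4
            · rcases mul_eq_zero.1 h4 with h5 | h5
              · exact h5
              · exact absurd (sub_eq_zero.1 h5) (no_pow hA1 sA (by omega) x)
            · exact absurd (sub_eq_zero.1 h4) (no_pow hB1 sB (by omega) x)
          · rw [eval_pow, eval_X] at h3
            exact pow_eq_zero_iff (by omega) |>.1 h3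
        subst h3
        dsimp only at h1
        rw [zero_mul, zero_mul] at h1
        rw [pow_eq_zero_iff two_ne_zero |>.1 h1]
      · intro h1
        obtain ⟨rfl, rfl⟩ := Prod.mk.inj h1
        simp
    rw [e1, Set.encard_singleton]
    norm_num
  · have hk0 : k ≠ 0 := by omega
    have sq : Squarefree ((X ^ k - C (A : ℚ)) * (X ^ k - C (B : ℚ)) : ℚ[X]) :=
      ((sep_one k hk0 A0).mul (sep_one k hk0 B0) (cop_one k AB)).squarefree
    have hdeg : ((X ^ k - C (A : ℚ)) * (X ^ k - C (B : ℚ)) : ℚ[X]).natDegree = 2 * k := by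
      rw [(monic_one k hk0 _).natDegree_mul (monic_one k hk0 _), deg_one k hk0, deg_one k hk0]
      ring
    have hlc : ((X ^ k - C (A : ℚ)) * (X ^ k - C (B : ℚ)) : ℚ[X]).leadingCoeff = 1 :=
      (monic_one k hk0 _).mul (monic_one k hk0 _)
    refine ⟨⟨by push_cast; exact sq, by omega, Or.inr (by push_cast; rw [hdeg]; omega)⟩, ?_⟩
    unfold numPoints
    push_cast
    rw [hdeg, hlc, if_neg (by rw [Nat.not_odd_iff_even]; exact ⟨k, by ring⟩), if_pos ⟨1, by norm_num⟩]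
    have e1 : {p : ℚ × ℚ | p.2 ^ 2 =
        ((X ^ k - C (A : ℚ)) * (X ^ k - C (B : ℚ)) : ℚ[X]).eval p.1} = ∅ := by
      rw [Set.eq_empty_iff_forall_notMem]
      rintro ⟨x, y⟩ h1
      rw [Set.mem_ofPred_eq, eval_mul, ev, ev] at h1
      dsimp only at h1
      obtain ⟨m, hm⟩ := he
      have h2 := key ((X ^ k - C (A : ℚ)) * (X ^ k - C (B : ℚ))) (X ^ m) (X ^ k) 1 (by
        rw [hm]; ring) x y (by rw [eval_mul, ev, ev]; exact h1)
      rcases h2 with h3 | h3
      · rw [h3, zero_pow two_ne_zero] at h1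
        rcases mul_eq_zero.1 h1.symm with h4 | h4
        · exact absurd (sub_eq_zero.1 h4) (no_pow hA1 sA (by omega) x)
        · exact absurd (sub_eq_zero.1 h4) (no_pow hB1 sB (by omega) x)
      · rw [eval_pow, eval_X] at h3
        have hx : x = 0 := pow_eq_zero_iff (by omega) |>.1 h3
        rw [hx, zero_pow hk0] at h1
        -- `y² = A B`
        have h4 : y ^ 2 = ((A * B : ℕ) : ℚ) := by rw [h1]; push_cast; ring
        exact nsq (Rat.isSquare_natCast_iff.1 ⟨y, by rw [← h4]; ring⟩)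
    rw [e1, Set.encard_empty, zero_add]
  · have hf0 : f ≠ 0 := hg.1.ne_zero
    have hd : f.natDegree ≤ 2 * g + 2 := by
      rcases hg.2.2 with h1 | h1 <;> omega
    have h1 := encard_le hf0 hh (key f h u v (by push_cast at e; exact e))
    unfold numPoints
    have h2 : ((if Odd f.natDegree then 1 else if IsSquare f.leadingCoeff then 2 else 0 : ℕ∞)) ≤ 2 := by
      split_ifs <;> norm_num
    calc {p : ℚ × ℚ | p.2 ^ 2 = f.eval p.1}.encard + _
        ≤ (f.natDegree + 2 * h.natDegree : ℕ∞) + 2 := add_le_add h1 h2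
      _ ≤ ((2 * g + 2 : ℕ) + 2 * h.natDegree : ℕ∞) + 2 := by gcongr
      _ = _ := by push_cast; ring
  · exact key f h u v (by push_cast at e; exact e)

/-- **Theorem.** A positive proportion of the pairs of integers `1 ≤ A, B ≤ N` is good: the curves
`y² = x (x ^ k - A) (x ^ k - B)` (`k ≥ 3` odd, genus `k`) and `y² = (x ^ k - A) (x ^ k - B)` (`k ≥ 4`
even, genus `k - 1`) have exactly two rational points, and every curve `y² = f(x)` of genus `g ≥ 2`
with `f h² = u v (u - A v) (u - B v)` for some polynomials `h ≠ 0`, `u`, `v` over `ℚ` has at most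
`2 g + 4 + 2 deg h` rational points. -/
theorem result : ∃ κ : ℝ, 0 < κ ∧ ∃ N₀ : ℕ, ∀ N : ℕ, N₀ ≤ N →
    κ * (N : ℝ) ^ 2 ≤ (({t : ℤ × ℤ | (1 ≤ t.1 ∧ t.1 ≤ N) ∧ (1 ≤ t.2 ∧ t.2 ≤ N) ∧
      Good t.1 t.2}.ncard : ℕ) : ℝ) := by
  classical
  obtain ⟨κ, hκ, N0, h⟩ := Pool.Agent.X257.EX.pairs2
  refine ⟨κ, hκ, N0, fun N hN => (h N hN).trans ?_⟩
  refine Nat.cast_le.2 ?_
  rw [← Set.ncard_coe_finset]
  refine Set.ncard_le_ncard_of_injOn (fun t : ℕ × ℕ => ((t.1 : ℤ), (t.2 : ℤ))) ?_ ?_ ?_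
  · rintro ⟨A, B⟩ ht
    rw [mem_coe, mem_filter, mem_product, mem_Icc, mem_Icc] at ht
    obtain ⟨⟨g1, g2⟩, g3⟩ := ht
    dsimp only at g1 g2 g3
    refine ⟨⟨?_, ?_⟩, ⟨?_, ?_⟩, good_of g3⟩ <;> dsimp only <;> omega
  · rintro ⟨A, B⟩ - ⟨A', B'⟩ - heq
    obtain ⟨e1, e2⟩ := Prod.mk.inj heq
    exact Prod.ext (by exact_mod_cast e1) (by exact_mod_cast e2)
  · refine Set.Finite.subset ((Set.finite_Icc (1 : ℤ) N).prod (Set.finite_Icc (1 : ℤ) N)) ?_
    rintro ⟨a, b⟩ ⟨h1, h2, -⟩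
    exact ⟨h1, h2⟩

end Pool.Agent.Results.MP_10e784_ag.CoversOfEllipticCurves
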