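import Pool.Agent.Results.MP_10e784_ag.DiagonalPlaneCurves
import Pool.Agent.X134.Win.NearZ

/-!
# Rational points on the curves `a x ^ p + b y ^ q = c` whose invariant is near a generic real number

Scaling the coordinates turns the curve `a x ^ p + b y ^ q = c` with a rational base point `P₀ = (x₀, y₀)`, `x₀ y₀ ≠ 0`,
into `α x ^ p + (1 - α) y ^ q = 1` with the base point `(1, 1)`, where `α = a x₀ ^ p / c`. There is a set `E` of real
numbers of Hausdorff dimension zero such that for every real number `x` outside `E` and every `η > 0` there are `g₀`, `Y₀`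
and `δ > 0` with the following property. For all real `Y ≥ Y₀` and ALL curves `a x ^ p + b y ^ q = c` with
`p, q ≤ Y ^ δ`, `gcd p q ≥ g₀` and nonzero rational `a, b, c` of any size, with a rational base point `P₀` such that
`|α - x| ≤ Y ^ (-η)`, there are at most eight rational points with nonzero coordinates whose quotients by the coordinates
of `P₀` have height at most `Y`.
-/

set_option autoImplicit false

open Filter Topology
open scoped ENNReal

namespace Pool.Agent.Results.MP_10e784_ag.GenericDiagonalCurves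

/-- the height of a rational number -/
def height (q : ℚ) : ℕ := max q.num.natAbs q.den

/-- the rational points with nonzero coordinates of `a x ^ p + b y ^ q = c` -/
def points (p q : ℕ) (a b c : ℚ) : Set (ℚ × ℚ) :=
  {P | P.1 ≠ 0 ∧ P.2 ≠ 0 ∧ a * P.1 ^ p + b * P.2 ^ q = c}

open Pool.Agent.X134.Win (two ht one_le_two near_zero exists_two rpow_le_two)

lemma heightLE_of {B : ℕ} {q : ℚ} (h : ht q ≤ B) : DiagonalPlaneCurves.HeightLE B q := by
  have h1 : q.num.natAbs ≤ B := le_trans (le_max_left _ _) h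
  have h2 : q.den ≤ B := le_trans (le_max_right _ _) h
  refine ⟨?_, h2⟩
  rw [Int.abs_eq_natAbs]
  exact_mod_cast h1

lemma two_eq (n : ℕ) : (((2 ^ n : ℕ)) : ℝ) = two n := by
  unfold two
  push_cast
  rfl

/-- **Theorem.** There is a set `E` of Hausdorff dimension zero such that for every real `x ∉ E` and every `η > 0` there
are `g₀`, `Y₀` and `δ > 0` such that for all `Y ≥ Y₀`, all `1 ≤ p, q ≤ Y ^ δ` with `gcd p q ≥ g₀`, all nonzero rational
`a, b, c` and all rational points `P₀` with nonzero coordinates of `a x ^ p + b y ^ q = c` with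
`|a x₀ ^ p / c - x| ≤ Y ^ (-η)` there are at most eight rational points `P` with nonzero coordinates of the curve such that
`x(P) / x(P₀)` and `y(P) / y(P₀)` have height at most `Y`. -/
theorem result : ∃ E : Set ℝ, dimH E = 0 ∧ ∀ x : ℝ, x ∉ E → ∀ η : ℝ, 0 < η →
    ∃ (g₀ : ℕ) (Y₀ δ : ℝ), 0 < δ ∧ ∀ Y : ℝ, Y₀ ≤ Y → ∀ p q : ℕ, 1 ≤ p → 1 ≤ q → g₀ ≤ Nat.gcd p q →
      (p : ℝ) ≤ Y ^ δ → (q : ℝ) ≤ Y ^ δ → ∀ a b c : ℚ, a ≠ 0 → b ≠ 0 → c ≠ 0 → ∀ P₀ ∈ points p q a b c,
      |((a * P₀.1 ^ p / c : ℚ) : ℝ) - x| ≤ Y ^ (-η) →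
      {P | P ∈ points p q a b c ∧ (height (P.1 / P₀.1) : ℝ) ≤ Y ∧ (height (P.2 / P₀.2) : ℝ) ≤ Y}.encard ≤ 8 := by
  have he : ∀ m : ℕ, (0 : ℝ) < 1 / ((m : ℝ) + 1) := fun m => by positivity
  choose g₀ δ hδ hres using fun m : ℕ => DiagonalPlaneCurves.result (1 / ((m : ℝ) + 1)) (he m)
  obtain ⟨E, hE1, hE2⟩ := near_zero (X := ℝ) (T := ℚ)
    (fun m n => (fun t : ℕ × ℕ × ℚ => t.2.2) '' DiagonalPlaneCurves.exceptional (g₀ m) (δ m) (2 ^ n))
    (fun t => (t : ℝ)) 1 zero_le_one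
    (fun m => ⟨1, fun n => by
      obtain ⟨h1, h2⟩ := hres m (2 ^ n) Nat.one_le_two_pow
      refine ⟨h1.image _, ?_⟩
      rw [one_mul, one_mul]
      refine (Nat.cast_le.2 (Set.ncard_image_le h1)).trans (h2.trans (le_of_eq ?_))
      rw [two_eq]⟩)
  refine ⟨E, hE1, fun x hx η hη => ?_⟩
  obtain ⟨m, -, n₀, hn₀⟩ := hE2 x hx (min η 1) (lt_min hη one_pos) 0
  refine ⟨g₀ m, max 1 (two n₀), δ m, hδ m, fun Y hY p q hp hq hg hp2 hq2 a b c ha hb hc P₀ hP₀ hcx => ?_⟩
  have hY1 : 1 ≤ Y := le_trans (le_max_left _ _) hY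
  have hYp : 0 < Y := by linarith
  obtain ⟨n, hn1, hn2⟩ := exists_two Y hY1
  have hnn : n₀ ≤ n := by
    by_contra hcon
    rw [not_le] at hcon
    have h5 : two n < two n₀ := pow_lt_pow_right₀ (by norm_num) hcon
    have h6 : two n₀ ≤ Y := le_trans (le_max_right _ _) hY
    linarith
  have hup : Y ^ δ m ≤ (((2 ^ n : ℕ)) : ℝ) ^ δ m := by
    rw [two_eq]
    exact Real.rpow_le_rpow hYp.le hn1 (hδ m).le
  have hle : ∀ r : ℚ, (height r : ℝ) ≤ Y → DiagonalPlaneCurves.HeightLE (2 ^ n) r := by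
    intro r hr
    refine heightLE_of ?_
    have h1 : (height r : ℝ) ≤ (((2 ^ n : ℕ)) : ℝ) := by
      rw [two_eq]
      exact hr.trans hn1
    exact_mod_cast h1
  by_contra hcon
  rw [not_le] at hcon
  have hmem : (p, q, a * P₀.1 ^ p / c) ∈ DiagonalPlaneCurves.exceptional (g₀ m) (δ m) (2 ^ n) := by
    refine ⟨hg, hp, hq, hp2.trans hup, hq2.trans hup, a, b, c, ha, hb, hc, P₀, hP₀, rfl, ?_⟩
    refine lt_of_lt_of_le hcon (Set.encard_le_encard ?_)
    rintro P ⟨hP, h1, h2⟩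
    exact ⟨hP, hle _ h1, hle _ h2⟩
  have h1 := hn₀ n hnn (a * P₀.1 ^ p / c) ⟨_, hmem, rfl⟩
  rw [Real.dist_eq] at h1
  exact absurd (hcx.trans (rpow_le_two n hY1 hη.le hn2)) (not_le.2 h1)

end Pool.Agent.Results.MP_10e784_ag.GenericDiagonalCurves
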