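import Pool.Agent.X20.Tr.Sqf
import Pool.Agent.Results.MP_10e784_ag.TwistsWithMixedFactors

/-!
# The rational points on almost all twists by `± ⌊α n ^ c⌋` of hyperelliptic curves with linear and other factors

From Mathlib: `dimH E`: the Hausdorff dimension; `⌊x⌋₊`: the integer part; `Finset.Icc 1 N`: the integers from `1` to
`N`; `ncard`: the number of elements. From the team's `TwistsWithMixedFactors` (its definitions are used as they are), for
a system `f k ∈ ℤ[x]` with homogenisations `F k = hom (f k)` and the curve `C_d : d y ^ 2 = ∏ k, F k (x, w)`: `Factors f`: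
the `f k` are irreducible over `ℚ`, pairwise non-associated, of even total degree, and at least four of them have odd degree;
`General f`: the condition on the linear factors; `Point f d x w y`: `(x : w : y)` is a rational point of `C_d` with
`y ≠ 0`; `Const f x w`: `(x : w)` is of constant type: for some linear factor `i` the values at `(x, w)` and at the zero of
`F i` of every product of even degree without `F i` are in the same square class.
-/

set_option autoImplicit false

namespace Pool.Agent.Results.MP_10e784_ag.SparseTwistsMixedFactors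

open Finset Filter Polynomial
open Pool.Agent.X20.Tr
open Pool.Agent.Results.MP_10e784_ag.TwistsWithMixedFactors (hom Factors General Point Const)

open Classical in
/-- for some `δ > 0` and both signs at most `C N (log N) ^ (-δ)` of the `n ≤ N` with squarefree `m(n) = ⌊α n ^ c⌋` have the
property `P (± m(n))` -/
def Rare (c α : ℝ) (P : ℤ → Prop) : Prop :=
  ∃ δ : ℝ, 0 < δ ∧ ∀ s : ℤ, (s = 1 ∨ s = -1) → ∃ C : ℝ, ∃ N₀ : ℕ, ∀ N : ℕ, N₀ ≤ N →
    (((Icc 1 N).filter (fun n : ℕ => Squarefree ⌊α * (n : ℝ) ^ c⌋₊ ∧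
      P (s * ((⌊α * (n : ℝ) ^ c⌋₊ : ℕ) : ℤ)))).card : ℝ) ≤ C * N * (Real.log N) ^ (-δ)

/-- `C_d` has a rational point with `y ≠ 0` which is not of constant type -/
def NewPoint {k : ℕ} (f : Fin k → ℤ[X]) (d : ℤ) : Prop := ∃ x w y : ℚ, Point f d x w y ∧ ¬ Const f x w

/-- `C_d` has a rational point with `y ≠ 0` -/
def OtherPoint {k : ℕ} (f : Fin k → ℤ[X]) (d : ℤ) : Prop := ∃ x w y : ℚ, Point f d x w y

/-- `d y ^ 2 = x ^ 5 - x` has other affine rational points than the three with `y = 0` -/
def More (d : ℤ) : Prop :=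
  {p : ℚ × ℚ | (d : ℚ) * p.2 ^ 2 = p.1 ^ 5 - p.1} ≠ {(0, 0), (1, 0), (-1, 0)}

open Classical in
/-- For every real `c > 1` there are `κ > 0` and a set `E` of real numbers of Hausdorff dimension at most `1 - κ`
such that for every real `α > 0` outside `E`, writing `m(n) = ⌊α n ^ c⌋`:

* for all large `N` at least `N / 24` of the `m(n)`, `n ≤ N`, are squarefree;
* for EVERY system `f` with `Factors f` and `General f`, for some `δ > 0`, for all but at most `C N (log N) ^ (-δ)` of the
  `n ≤ N` with squarefree `m(n)` all rational points of the curves `C_d`, `d = ± m(n)`, with `y ≠ 0` are of constant type;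
  if only finitely many rational `t` are of constant type, there are no such points at all, for all but so many `n`;
* for all but so many `n` the curve `d y ^ 2 = x ^ 5 - x` of genus 2 has exactly the affine rational points `(0, 0)`,
  `(1, 0)`, `(-1, 0)`. -/
theorem result (c : ℝ) (hc : 1 < c) : ∃ κ : ℝ, 0 < κ ∧ κ < 1 ∧ ∃ E : Set ℝ, dimH E ≤ ENNReal.ofReal (1 - κ) ∧
    ∀ α : ℝ, 0 < α → α ∉ E →
      (∃ N₀ : ℕ, ∀ N : ℕ, N₀ ≤ N →
        (N : ℝ) / 24 ≤ (((Icc 1 N).filter (fun n : ℕ => Squarefree ⌊α * (n : ℝ) ^ c⌋₊)).card : ℝ)) ∧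
      (∀ (k : ℕ) (f : Fin k → ℤ[X]), Factors f → General f → Rare c α (NewPoint f) ∧
        ({t : ℚ | (∀ i, hom (f i) t 1 ≠ 0) ∧ Const f t 1}.Finite → Rare c α (OtherPoint f))) ∧
      Rare c α More := by
  obtain ⟨κ, hκ0, hκ1, H⟩ := sparse_sqf c hc
  have := countable_systems
  obtain ⟨E, hE, h⟩ := H (Option (((k : ℕ) × (Fin k → ℤ[X])) × Bool)) (fun i d => match i with
    | none => More d
    | some (f, true) => NewPoint f.2 d
    | some (f, false) => OtherPoint f.2 d)
  refine ⟨κ, hκ0, hκ1, E, hE, fun α hα hαE => ⟨(h α hα hαE).1, fun k f hf hg => ⟨?_, fun hfin => ?_⟩, ?_⟩⟩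
  · obtain ⟨δ, hδ, C, hC⟩ := (TwistsWithMixedFactors.result.1 (Fin k) f hf hg).1
    exact ⟨δ, hδ, fun s hs => (h α hα hαE).2 (some (⟨k, f⟩, true)) s hs δ C hδ ⟨3, hC⟩⟩
  · obtain ⟨δ, hδ, C, hC⟩ := (TwistsWithMixedFactors.result.1 (Fin k) f hf hg).2 hfin
    exact ⟨δ, hδ, fun s hs => (h α hα hαE).2 (some (⟨k, f⟩, false)) s hs δ C hδ ⟨3, hC⟩⟩
  · obtain ⟨δ, hδ, C, hC⟩ := TwistsWithMixedFactors.result.2.2
    exact ⟨δ, hδ, fun s hs => (h α hα hαE).2 none s hs δ C hδ ⟨3, hC⟩⟩

end Pool.Agent.Results.MP_10e784_ag.SparseTwistsMixedFactors
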