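import Pool.Agent.X20.Tr.Sqf
import Pool.Agent.Results.MP_10e784_ag.TwistsWithTrivialPoints

/-!
# Curves of every genus `g ≥ 3`, almost all of whose twists by `± ⌊α n ^ c⌋` have exactly `2 g + 2` rational points

From Mathlib: `dimH E`: the Hausdorff dimension; `⌊x⌋₊`: the integer part; `Finset.Icc 1 N`: the integers from `1` to
`N`; `ncard`: the number of elements. From the team's `TwistsWithTrivialPoints` (its definitions are used as they are), for a
finite set `A` of integers: `GenSet A`: `A ∪ {∞}` is generic (for `a ∈ A` the differences `a - l`, `l ≠ a`, are not all in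
the same square class, and for `a ≠ b` in `A` some product `(a - l) (b - l)` is not a square); `FermatSet A`: `A` contains a
nonconstant four term arithmetic progression, and so does `{0} ∪ {1 / (b - a) | b ∈ A, b ≠ a}` for every `a ∈ A`.
-/

set_option autoImplicit false

namespace Pool.Agent.Results.MP_10e784_ag.SparseTwistsTrivialPoints

open Finset Filter
open Pool.Agent.X20.Tr
open Pool.Agent.Results.MP_10e784_ag.TwistsWithTrivialPoints (GenSet FermatSet)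

open Classical in
/-- at most `C N (log N) ^ (-1/5)` of the `n ≤ N` with squarefree `m(n) = ⌊α n ^ c⌋` have the property `P (± m(n))`, for
both signs -/
def Rare (c α : ℝ) (P : ℤ → Prop) : Prop :=
  ∀ s : ℤ, (s = 1 ∨ s = -1) → ∃ C : ℝ, ∃ N₀ : ℕ, ∀ N : ℕ, N₀ ≤ N →
    (((Icc 1 N).filter (fun n : ℕ => Squarefree ⌊α * (n : ℝ) ^ c⌋₊ ∧
      P (s * ((⌊α * (n : ℝ) ^ c⌋₊ : ℕ) : ℤ)))).card : ℝ) ≤ C * N * (Real.log N) ^ (-(1 / 5 : ℝ))

/-- the number of the affine rational points of `d y ^ 2 = ∏ a ∈ A, (x - a)` is not `|A|` (the number of those with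
`y = 0`) -/
def More (A : Finset ℤ) (d : ℤ) : Prop :=
  {p : ℚ × ℚ | (d : ℚ) * p.2 ^ 2 = ∏ a ∈ A, (p.1 - a)}.ncard ≠ A.card

/-- the number of the affine rational points of `d y ^ 2 = x (x ^ 2 - 1) (x ^ 2 - 9) ⋯ (x ^ 2 - 9 ^ (g - 1))` is not
`2 g + 1` -/
def MoreNine (g : ℕ) (d : ℤ) : Prop :=
  {p : ℚ × ℚ | (d : ℚ) * p.2 ^ 2 = p.1 * ∏ j ∈ range g, (p.1 ^ 2 - 9 ^ j)}.ncard ≠ 2 * g + 1

/-- the number of the affine rational points of `d y ^ 2 = x (x - 1) (x - 2) ⋯ (x - 2 g)` is not `2 g + 1` -/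
def MoreInterval (g : ℕ) (d : ℤ) : Prop :=
  {p : ℚ × ℚ | (d : ℚ) * p.2 ^ 2 = ∏ j ∈ range (2 * g + 1), (p.1 - j)}.ncard ≠ 2 * g + 1

open Classical in
/-- For every real `c > 1` there are `κ > 0` and a set `E` of real numbers of Hausdorff dimension at most `1 - κ`
such that for every real `α > 0` outside `E`, writing `m(n) = ⌊α n ^ c⌋`:

* for all large `N` at least `N / 24` of the `m(n)`, `n ≤ N`, are squarefree;
* for EVERY set `A` of `2 g + 1 ≥ 7` integers with `GenSet A` and `FermatSet A`, for all but at most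
  `C N (log N) ^ (-1/5)` of the `n ≤ N` with squarefree `m(n)` the curve `d y ^ 2 = ∏ a ∈ A, (x - a)`, `d = ± m(n)`, of genus
  `g` has exactly `2 g + 1` affine rational points (`2 g + 2` with the point at infinity), those with `y = 0`;
* the same is true for the curves `d y ^ 2 = x (x ^ 2 - 1) (x ^ 2 - 9) ⋯ (x ^ 2 - 9 ^ (g - 1))` for every `g ≥ 3` and
  `d y ^ 2 = x (x - 1) (x - 2) ⋯ (x - 2 g)` for every `g ≥ 4`. -/
theorem result (c : ℝ) (hc : 1 < c) : ∃ κ : ℝ, 0 < κ ∧ κ < 1 ∧ ∃ E : Set ℝ, dimH E ≤ ENNReal.ofReal (1 - κ) ∧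
    ∀ α : ℝ, 0 < α → α ∉ E →
      (∃ N₀ : ℕ, ∀ N : ℕ, N₀ ≤ N →
        (N : ℝ) / 24 ≤ (((Icc 1 N).filter (fun n : ℕ => Squarefree ⌊α * (n : ℝ) ^ c⌋₊)).card : ℝ)) ∧
      (∀ A : Finset ℤ, Odd A.card → 7 ≤ A.card → GenSet A → FermatSet A → Rare c α (More A)) ∧
      (∀ g : ℕ, 3 ≤ g → Rare c α (MoreNine g)) ∧
      (∀ g : ℕ, 4 ≤ g → Rare c α (MoreInterval g)) := by
  obtain ⟨κ, hκ0, hκ1, H⟩ := sparse_sqf c hc
  obtain ⟨E, hE, h⟩ := H (Finset ℤ ⊕ (ℕ × Bool)) (fun i d => match i with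
    | Sum.inl A => More A d
    | Sum.inr (g, true) => MoreNine g d
    | Sum.inr (g, false) => MoreInterval g d)
  refine ⟨κ, hκ0, hκ1, E, hE, fun α hα hαE => ⟨(h α hα hαE).1, fun A hodd h7 h1 h2 s hs => ?_,
    fun g hg s hs => ?_, fun g hg s hs => ?_⟩⟩
  · obtain ⟨C, hC⟩ := TwistsWithTrivialPoints.result.1 A hodd h7 h1 h2
    exact (h α hα hαE).2 (Sum.inl A) s hs (1 / 5) C (by norm_num) ⟨3, hC⟩
  · obtain ⟨C, hC⟩ := TwistsWithTrivialPoints.result.2.1 g hg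
    exact (h α hα hαE).2 (Sum.inr (g, true)) s hs (1 / 5) C (by norm_num) ⟨3, hC⟩
  · obtain ⟨C, hC⟩ := TwistsWithTrivialPoints.result.2.2 g hg
    exact (h α hα hαE).2 (Sum.inr (g, false)) s hs (1 / 5) C (by norm_num) ⟨3, hC⟩

end Pool.Agent.Results.MP_10e784_ag.SparseTwistsTrivialPoints
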